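import Pool.Agent.Run7.h601.Theta333Main

/-!
# The theta graph with three arcs of length three is metrizable

`Metrizable G` (file `Pool.Agent.Run7.h601.PathSystems`): every consistent path system of `G` is
induced by a positive weight of the edges. `theta333` (file `Pool.Agent.Run7.h601.Theta333Main`) is
the graph on the vertices `0, …, 7` consisting of the three arcs `0,2,3,1`, `0,4,5,1`, `0,6,7,1`
between `0` and `1`.

The proof is a kernel-checked search: the 96 simple paths of the graph are listed, a branching over
the 28 pairs of vertices finds all consistent path systems (there are 1848), and each of them is
induced by one of 205 integer weights.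
-/

namespace Pool.Agent.Results.MP_d7339e_co.ThetaThreeThreeThree

open Pool.Agent.Run7.h601

/-- `Θ_{3,3,3}` is metrizable. -/
theorem result : Metrizable Theta333.theta333 :=
  Theta333.metrizable

end Pool.Agent.Results.MP_d7339e_co.ThetaThreeThreeThree
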